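import Pool.Agent.Helper97.Tate.Goals

/-!
# Packet TATE-EVI
-/

set_option autoImplicit false

noncomputable section

namespace Pool.Agent.Helper73.Tate.EVI

open Pool.Agent.Helper97.Tate

variable {k : Type} [Field k]

/-- the polynomial `x (1 + s)` -/
def qx (x : kˣ) : Polynomial k := Polynomial.C (x : k) * (1 + Polynomial.X)

theorem coe_qx (x : kˣ) : ((qx x : Polynomial k) : PowerSeries k) = (xs x : PowerSeries k) := by
  unfold qx xs
  rw [Polynomial.coe_mul, Polynomial.coe_C, Polynomial.coe_add, Polynomial.coe_one,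
    Polynomial.coe_X]

theorem eval_eq (x : kˣ) (p : Polynomial k) :
    Polynomial.eval₂ PowerSeries.C (xs x : PowerSeries k) p =
      ((p.comp (qx x) : Polynomial k) : PowerSeries k) := by
  rw [← coe_qx, Polynomial.comp]
  induction p using Polynomial.induction_on' with
  | add p q hp hq => rw [Polynomial.eval₂_add, Polynomial.eval₂_add, Polynomial.coe_add, hp, hq]
  | monomial n a =>
    rw [Polynomial.eval₂_monomial, Polynomial.eval₂_monomial, Polynomial.coe_mul,
      Polynomial.coe_C, Polynomial.coe_pow]

theorem comp_inj (x : kˣ) (p : Polynomial k) (h : p.comp (qx x) = 0) : p = 0 := by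
  rw [Polynomial.comp_eq_zero_iff] at h
  rcases h with h | h
  · exact h
  · exfalso
    have h1 := congrArg (fun r => Polynomial.coeff r 1) h.2
    simp [qx, Polynomial.coeff_C, Polynomial.coeff_one] at h1

theorem evR_inj (x : kˣ) (u : LaurentPolynomial k) (h : evR x u = 0) : u = 0 := by
  obtain ⟨n, p, hp⟩ := LaurentPolynomial.exists_T_pow u
  have h1 : evR x (Polynomial.toLaurent p) = 0 := by rw [hp, map_mul, h, zero_mul]
  rw [evR, LaurentPolynomial.eval₂_toLaurent, eval_eq, Polynomial.coe_eq_zero_iff] at h1
  have h2 := comp_inj x p h1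
  rw [h2, map_zero] at hp
  have h3 : u = u * LaurentPolynomial.T (n : ℤ) * LaurentPolynomial.T (-(n : ℤ)) := by
    rw [mul_assoc, ← LaurentPolynomial.T_add, add_neg_cancel, LaurentPolynomial.T_zero, mul_one]
  rw [h3, ← hp, zero_mul]

theorem t : S_EVI := by
  intro k _ x f h
  have h1 : evx x f = 0 := by
    have hinj : Function.Injective (PowerSeries.map (algebraMap (OO k) (KK k))) :=
      PowerSeries.map_injective _ (IsFractionRing.injective (OO k) (KK k))
    exact hinj (by rw [map_zero]; exact h)
  ext1 N
  rw [map_zero]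
  apply evR_inj x
  ext1 α
  have h2 := congrArg (fun g => PowerSeries.coeff N (PowerSeries.coeff α g)) h1
  simp only [map_zero] at h2
  rw [map_zero, ← h2]
  simp [evx, sw]

end Pool.Agent.Helper73.Tate.EVI
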